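import Pool.Agent.P8H24.PR.Stm
import Pool.Agent.TH468.BE.Fol

/-!
Package FOL of the project PR: virtually solvable groups satisfy the Følner condition.
-/

set_option autoImplicit false

open Finset
open scoped Pointwise commutatorElement

namespace Pool.Agent.P8H4.PR

open Pool.Agent.TH468.BE (Folner Folner.ext)
open Pool.Agent.P8H24.PR

theorem fol_der (n : ℕ) : ∀ (B : Type) [Group B], derivedSeries B n = ⊥ →
    ∃ φ : ℕ → ℕ → ℕ, Folner φ B := by
  obtain ⟨φc, hφc⟩ := Pool.Agent.TH468.BE.exists_comm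
  induction n with
  | zero =>
    intro B _ h
    refine ⟨φc, hφc B fun a b => ?_⟩
    rw [derivedSeries_zero] at h
    have h1 : ∀ x : B, x = 1 := fun x => by
      have hx : x ∈ (⊤ : Subgroup B) := Subgroup.mem_top x
      rw [h] at hx
      exact Subgroup.mem_bot.1 hx
    rw [h1 a, h1 b]
  | succ n ih =>
    intro B _ h
    rw [derivedSeries_succ] at h
    have hQ : derivedSeries (B ⧸ derivedSeries B n) n = ⊥ := by
      rw [← map_derivedSeries_eq (QuotientGroup.mk'_surjective (derivedSeries B n)) n]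
      rw [Subgroup.map_eq_bot_iff, QuotientGroup.ker_mk']
    obtain ⟨ψ, hψ⟩ := ih (B ⧸ derivedSeries B n) hQ
    have hN : Folner φc (derivedSeries B n) := by
      refine hφc _ fun a b => ?_
      have h2 : ⁅(a : B), (b : B)⁆ ∈ ⁅derivedSeries B n, derivedSeries B n⁆ :=
        Subgroup.commutator_mem_commutator a.2 b.2
      rw [h, Subgroup.mem_bot, commutatorElement_eq_one_iff_mul_comm] at h2
      exact Subtype.ext h2
    exact ⟨_, Folner.ext hN hψ⟩

theorem fol_finite (B : Type) [Group B] [Finite B] : ∃ φ : ℕ → ℕ → ℕ, Folner φ B := by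
  classical
  have := Fintype.ofFinite B
  refine ⟨fun _ _ => Fintype.card B, fun k t G _ => ⟨univ, ⟨1, mem_univ 1⟩, le_of_eq rfl, ?_⟩⟩
  have h1 : ((univ : Finset B) : Set B).ncard = Fintype.card B := by
    rw [Set.ncard_coe_finset, Finset.card_univ]
  have h2 : (((univ : Finset B) : Set B) * (G : Set B)).ncard ≤ Fintype.card B := by
    rw [← h1]
    exact Set.ncard_le_ncard (by simp) (Set.toFinite _)
  rw [Finset.card_univ]
  nlinarith

theorem fol_vsol {G : Type} [Group G] {L : Subgroup G} (hL : VSol L) :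
    ∃ φ : ℕ → ℕ → ℕ, Folner φ L := by
  obtain ⟨H, hHL, hidx, hsol⟩ := hL
  have hfi : (H.subgroupOf L).FiniteIndex := ⟨hidx⟩
  have hsol' : Group.IsSolvable (H.subgroupOf L) := by
    have h1 : Function.Injective ((Subgroup.subgroupOfEquivOfLe hHL).toMonoidHom) :=
      (Subgroup.subgroupOfEquivOfLe hHL).injective
    exact Group.isSolvable_of_isSolvable_injective h1
  have hcore : Group.IsSolvable ((H.subgroupOf L).normalCore) :=
    Group.isSolvable_of_isSolvable_injective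
      (Subgroup.inclusion_injective (Subgroup.normalCore_le (H.subgroupOf L)))
  obtain ⟨n, hn⟩ := hcore.solvable
  obtain ⟨φ, hφ⟩ := fol_der n _ hn
  have hfi' : (H.subgroupOf L).normalCore.FiniteIndex := inferInstance
  have : Finite (L ⧸ (H.subgroupOf L).normalCore) := inferInstance
  obtain ⟨ψ, hψ⟩ := fol_finite (L ⧸ (H.subgroupOf L).normalCore)
  exact ⟨_, Folner.ext hφ hψ⟩

theorem fol : S_FOL := by
  classical
  intro G _ L hL S hS ε hε
  obtain ⟨φ, hφ⟩ := fol_vsol hL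
  obtain ⟨t, ht⟩ := exists_nat_gt (1 / ε)
  have ht0 : 0 < (t : ℝ) := lt_trans (by positivity) ht
  have htε : 1 / (t : ℝ) ≤ ε := by
    rw [div_le_iff₀ ht0]
    rw [div_lt_iff₀ hε] at ht
    linarith
  let G0 : Finset L := insert 1 (S.attach.image fun y => (⟨y.1, hS y.1 y.2⟩ : L)⁻¹)
  obtain ⟨F0, hF0, -, hF⟩ := hφ G0.card t G0 le_rfl
  rw [← Finset.coe_mul, Set.ncard_coe_finset] at hF
  let m : L → G := fun k => ((k⁻¹ : L) : G)
  have hm : Function.Injective m := fun a b h => by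
    have h1 : a⁻¹ = b⁻¹ := Subtype.ext h
    exact inv_injective h1
  refine ⟨m '' (F0 : Set L), F0.finite_toSet.image _, ?_, ?_, ?_⟩
  · exact (Finset.coe_nonempty.2 hF0).image _
  · rintro _ ⟨k, _, rfl⟩
    exact (k⁻¹ : L).2
  · intro y hy
    have hyL := hS y hy
    have h1 : (m '' (F0 : Set L)).ncard = F0.card := by
      rw [Set.ncard_image_of_injective _ hm, Set.ncard_coe_finset]
    have h2 : ({k ∈ m '' (F0 : Set L) | y * k ∈ m '' (F0 : Set L)} : Set G) =
        m '' ((F0.filter fun f => f * (⟨y, hyL⟩ : L)⁻¹ ∈ F0 : Finset L) : Set L) := by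
      ext x
      constructor
      · rintro ⟨⟨f, hf, rfl⟩, ⟨f', hf', h⟩⟩
        refine ⟨f, ?_, rfl⟩
        rw [Finset.mem_coe, mem_filter]
        refine ⟨hf, ?_⟩
        have h3 : f' = f * (⟨y, hyL⟩ : L)⁻¹ := by
          have h4 : (f'⁻¹ : L) = (⟨y, hyL⟩ : L) * f⁻¹ := Subtype.ext h
          rw [← inv_inv f', h4, mul_inv_rev, inv_inv]
        rw [← h3]
        exact hf'
      · rintro ⟨f, hf, rfl⟩
        rw [Finset.mem_coe, mem_filter] at hf
        refine ⟨⟨f, hf.1, rfl⟩, ⟨f * (⟨y, hyL⟩ : L)⁻¹, hf.2, ?_⟩⟩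
        show (((f * (⟨y, hyL⟩ : L)⁻¹)⁻¹ : L) : G) = y * ((f⁻¹ : L) : G)
        rw [mul_inv_rev, inv_inv]
        rfl
    rw [h2, h1, Set.ncard_image_of_injective _ hm, Set.ncard_coe_finset]
    have h3 : (F0.filter fun f => f * (⟨y, hyL⟩ : L)⁻¹ ∈ F0).card +
        (F0.filter fun f => ¬ f * (⟨y, hyL⟩ : L)⁻¹ ∈ F0).card = F0.card :=
      Finset.card_filter_add_card_filter_not _
    have hsub : F0 ⊆ F0 * G0 := fun f hf => by
      have := Finset.mul_mem_mul hf (mem_insert_self 1 _ : (1 : L) ∈ G0)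
      rwa [mul_one] at this
    have h4 : (F0.filter fun f => ¬ f * (⟨y, hyL⟩ : L)⁻¹ ∈ F0).card ≤ ((F0 * G0) \ F0).card := by
      refine Finset.card_le_card_of_injOn (fun f => f * (⟨y, hyL⟩ : L)⁻¹) ?_
        (fun a _ b _ h => mul_right_cancel h)
      intro f hf
      rw [Finset.mem_coe, mem_filter] at hf
      rw [Finset.mem_coe, mem_sdiff]
      refine ⟨Finset.mul_mem_mul hf.1 (mem_insert_of_mem ?_), hf.2⟩
      exact mem_image.2 ⟨⟨y, hy⟩, mem_attach _ _, rfl⟩
    rw [Finset.card_sdiff_of_subset hsub] at h4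
    have h5 := Finset.card_le_card hsub
    have h6 : ((F0.filter fun f => ¬ f * (⟨y, hyL⟩ : L)⁻¹ ∈ F0).card : ℝ) ≤
        ((F0 * G0).card : ℝ) - F0.card := by
      rw [← Nat.cast_sub h5]
      exact_mod_cast h4
    have h7 : (t : ℝ) * (F0 * G0).card ≤ (t + 1) * F0.card := by exact_mod_cast hF
    have h8 : ((F0.filter fun f => f * (⟨y, hyL⟩ : L)⁻¹ ∈ F0).card : ℝ) +
        ((F0.filter fun f => ¬ f * (⟨y, hyL⟩ : L)⁻¹ ∈ F0).card : ℝ) = F0.card := by
      exact_mod_cast h3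
    have h9 : ((F0.filter fun f => ¬ f * (⟨y, hyL⟩ : L)⁻¹ ∈ F0).card : ℝ) ≤
        1 / t * F0.card := by
      rw [div_mul_eq_mul_div, le_div_iff₀ ht0]
      nlinarith
    have h10 : 1 / (t : ℝ) * F0.card ≤ ε * F0.card := by gcongr
    linarith

end Pool.Agent.P8H4.PR
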